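import Pool.Agent.helper16.PC2.CHQ

/-!
# PC project, second half: the character values of the standard elements (module `CH2`)
-/

namespace Pool.Agent.helper27.PC

open Module Finset Polynomial Pool.Agent.helper31.PC

theorem CH2_posWord_succ (α : List ℕ) (k : ℕ) : posWord (k + 1) α = (posWord k α).map (· + 1) := by
  induction α generalizing k with
  | nil => rfl
  | cons a α ih =>
    rw [posWord, posWord, List.map_append, ← ih, ← range'_succ_shift, show k + 1 + a = k + a + 1 by ring]

theorem CH2_posWord_ge (α : List ℕ) (k : ℕ) : ∀ i ∈ posWord k α, k + 1 ≤ i := by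
  induction α generalizing k with
  | nil => intro i hi; simp [posWord] at hi
  | cons a α ih =>
    intro i hi
    rw [posWord, List.mem_append, List.mem_range'_1] at hi
    rcases hi with hi | hi
    · exact hi.1
    · have := ih (k + a) i hi
      omega

theorem CH2_posWord_length (α : List ℕ) (hα : ∀ a ∈ α, 1 ≤ a) (k : ℕ) :
    (posWord k α).length + α.length = α.sum := by
  induction α generalizing k with
  | nil => rfl
  | cons a α ih =>
    have h1 := ih (fun b hb => hα b (by simp [hb])) (k + a)
    have h2 := hα a (by simp)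
    rw [posWord, List.length_append, List.length_range', List.length_cons, List.sum_cons]
    omega

theorem CH2_stdWord_lt (l : List ℕ) (hl : ∀ a ∈ l, 1 ≤ a) (k : ℕ) :
    ∀ i ∈ stdWord k l, i < k + l.sum := by
  induction l generalizing k with
  | nil => intro i hi; simp [stdWord] at hi
  | cons a l ih =>
    intro i hi
    have h2 := hl a (by simp)
    rw [stdWord, List.mem_append] at hi
    rw [List.sum_cons]
    rcases hi with hi | hi
    · unfold blockWord at hi
      rw [List.mem_append, List.mem_reverse, List.mem_range, List.mem_range'_1] at hi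
      omega
    · have := ih (fun b hb => hl b (by simp [hb])) (k + a) i hi
      omega

section

variable {K : Type} [Field K] {Q v : K}

theorem CH2_Sh_word (Q v : K) (m : ℕ) (l : List ℕ) (h : ∀ i ∈ l, 1 ≤ i) :
    Sh (opWQ Q v m l) (opWQ Q v m (l.map (· + 1))) := by
  unfold opWQ
  rw [List.map_map]
  refine Sh_prod (fun i => opQ Q v m i) (fun i => opQ Q v m (i + 1)) l fun i hi => ?_
  obtain ⟨j, rfl⟩ : ∃ j, i = j + 1 := ⟨i - 1, by have := h i hi; omega⟩
  exact Sh_Top v _ j

theorem CH2_Pre_word (Q v : K) (m n : ℕ) (l : List ℕ) (h : ∀ i ∈ l, i < n) :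
    Pre n (opWQ Q v m l) := by
  unfold opWQ
  refine Pre_prod (fun i => opQ Q v m i) l fun i hi => ?_
  have := h i hi
  cases i with
  | zero => exact Pre_Xop _ this
  | succ j => exact Pre_Top v _ this

theorem CH2_ShN (Q v : K) (m k : ℕ) (α : List ℕ) :
    ShN k (opWQ Q v m (posWord 0 α)) (opWQ Q v m (posWord k α)) ∧
    ShN k (opWQ Q v m (posWord 0 α).reverse) (opWQ Q v m (posWord k α).reverse) := by
  constructor
  · refine ShN_of (fun i => opWQ Q v m (posWord i α)) (fun i => ?_) k
    rw [CH2_posWord_succ]
    exact CH2_Sh_word Q v m _ fun j hj => by have := CH2_posWord_ge α i j hj; omega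
  · refine ShN_of (fun i => opWQ Q v m (posWord i α).reverse) (fun i => ?_) k
    rw [CH2_posWord_succ, ← List.map_reverse]
    exact CH2_Sh_word Q v m _ fun j hj => by
      rw [List.mem_reverse] at hj
      have := CH2_posWord_ge α i j hj; omega

end

theorem CH2 (h : CHQ_stmt) : CH2_stmt := by
  intro t K _ v hv n β α hT S
  obtain ⟨hβ, -, hα, hn⟩ := hT
  have hq : GenQ (Qt t v) v := GenQ_Qt hv t
  have hs := CH2_ShN (Qt t v) v n β.sum α
  have hlen : lenT t (word2 β α) = lenT t (stdWord 0 β) + (α.sum - α.length) := by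
    unfold word2
    rw [CHQ_lenT_append, CHQ_lenT_pos t (posWord β.sum α) fun i hi => by
      have := CH2_posWord_ge α β.sum i hi; omega]
    have := CH2_posWord_length α hα β.sum
    omega
  have hlt := CH2_stdWord_lt β hβ 0
  rw [zero_add] at hlt
  constructor
  · have e : trP n (vac n) S (opWQ (Qt t v) v n (word2 β α)) =
        ∑ M ∈ ends β.sum (vac n), trP β.sum (vac n) M (opWQ (Qt t v) v n (stdWord 0 β)) *
          trP α.sum M S (opWQ (Qt t v) v n (posWord 0 α)) := by
      have h1 := trP_mul (CH2_Pre_word (Qt t v) v n β.sum _ hlt) hs.1 α.sum (vac n) S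
      rw [hn] at h1
      unfold word2
      rw [CHQ_opWQ_append, h1]
    rw [e, hlen, mul_sum]
    apply sum_congr rfl
    intro M _
    rw [← (h t K v hv n β hβ (by omega) M).1, pow_add]
    ring
  · have e : trP n (vac n) S (opWQ (Qt t v) v n (word2 β α).reverse) =
        ∑ M ∈ ends β.sum (vac n), trP β.sum (vac n) M (opWQ (Qt t v) v n (stdWord 0 β).reverse) *
          trP α.sum M S (opWQ (Qt t v) v n (posWord 0 α).reverse) := by
      have h1 := trP_mul (CH2_Pre_word (Qt t v) v n β.sum (stdWord 0 β).reverse (fun i hi => by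
        rw [List.mem_reverse] at hi
        exact hlt i hi)) hs.2 α.sum (vac n) S
      rw [hn] at h1
      rw [← h1]
      unfold word2
      rw [List.reverse_append, CHQ_opWQ_append, trP_eq, trP_eq, trF_eq, trF_eq,
        matF_mul (CHQ_opWQ_stab hq n n (vac n) S _), matF_mul (CHQ_opWQ_stab hq n n (vac n) S _),
        Matrix.trace_mul_comm]
    rw [e, hlen, mul_sum]
    apply sum_congr rfl
    intro M _
    rw [← (h t K v hv n β hβ (by omega) M).2, pow_add]
    ring

end Pool.Agent.helper27.PC
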