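import Pool.Agent.helper27.PC2.RRQ
import Pool.Agent.helper31.PC.CH

/-!
# PC project, second half: the character values of the products of negative cycles (module `CHQ`)
-/

namespace Pool.Agent.helper27.PC

open Module Finset Polynomial Pool.Agent.helper31.PC

section gen

variable {K : Type*} [Field K]

/-- block operators -/
structure CHQ_BD (v : K) (x : Lab → K) (D : ℕ → ℕ → Module.End K (List Lab →₀ K)) : Prop where
  sh : ∀ k a, Sh (D k a) (D (k + 1) a)
  pre : ∀ a, 1 ≤ a → Pre a (D 0 a)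
  stab : ∀ k a n S S', Stab (paths n S S') (D k a)
  tr : ∀ a, 1 ≤ a → ∀ S S', trP a S S' (D 0 a) =
    v ^ (a - 1) * Rib x a (Finsupp.single S 1) S'

variable {v : K} {x : Lab → K} {D : ℕ → ℕ → Module.End K (List Lab →₀ K)}

theorem CHQ_mB_sh (hD : CHQ_BD v x D) (l : List ℕ) (k : ℕ) : Sh (mB D k l) (mB D (k + 1) l) := by
  induction l generalizing k with
  | nil => exact Sh.one
  | cons a l ih =>
    rw [mB, mB, show k + 1 + a = k + a + 1 by ring]
    exact (hD.sh k a).mul (ih _)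

theorem CHQ_mB'_sh (hD : CHQ_BD v x D) (l : List ℕ) (k : ℕ) : Sh (mB' D k l) (mB' D (k + 1) l) := by
  induction l generalizing k with
  | nil => exact Sh.one
  | cons a l ih =>
    rw [mB', mB', show k + 1 + a = k + a + 1 by ring]
    exact (ih _).mul (hD.sh k a)

theorem CHQ_mB_stab (hD : CHQ_BD v x D) (l : List ℕ) (k n : ℕ) (S S' : St) :
    Stab (paths n S S') (mB D k l) := by
  induction l generalizing k with
  | nil => exact Stab.one _
  | cons a l ih => exact (hD.stab k a n S S').mul (ih _)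

theorem CHQ_mB'_stab (hD : CHQ_BD v x D) (l : List ℕ) (k n : ℕ) (S S' : St) :
    Stab (paths n S S') (mB' D k l) := by
  induction l generalizing k with
  | nil => exact Stab.one _
  | cons a l ih => exact (ih _).mul (hD.stab k a n S S')

/-- the trace step -/
theorem CHQ_step_sum (hD : CHQ_BD v x D) {a : ℕ} (ha : 1 ≤ a) (hv : v ≠ 0) (S S' : St) (f : St → K)
    (c : K) (y : (St →₀ K) →ₗ[K] (St →₀ K)) (hf : ∀ M, f M = c * y (Finsupp.single M 1) S') :
    ∑ M ∈ ends a S, trP a S M (D 0 a) * f M =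
      (v ^ (a - 1) * c) * y (Rib x a (Finsupp.single S 1)) S' := by
  rw [apply_expand y, Finsupp.mul_sum]
  unfold Finsupp.sum
  symm
  have h1 : ∀ M, v ^ (a - 1) * c * ((Rib x a (Finsupp.single S 1)) M *
      y (Finsupp.single M 1) S') = trP a S M (D 0 a) * f M := by
    intro M
    rw [hD.tr a ha, hf]; ring
  simp only [h1]
  apply sum_subset
  · intro M hM
    by_contra h3
    have h4 := trP_of_not_mem a S M (D 0 a) h3
    rw [hD.tr a ha] at h4
    rcases mul_eq_zero.1 h4 with h5 | h5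
    · exact pow_ne_zero _ hv h5
    · exact (Finsupp.mem_support_iff.1 hM) h5
  · intro M _ hM
    rw [hD.tr a ha, Finsupp.notMem_support_iff.1 hM]; simp

theorem CHQ_tr_mB (hD : CHQ_BD v x D) (hv : v ≠ 0) (l : List ℕ) (hl : ∀ a ∈ l, 1 ≤ a) (S S' : St) :
    trP l.sum S S' (mB D 0 l) =
      v ^ ((l.map (· - 1)).sum) * fx x l (Finsupp.single S 1) S' := by
  induction l generalizing S with
  | nil =>
    rw [mB, List.sum_nil, trP_zero, fx]
    simp
  | cons a l ih =>
    have ha : 1 ≤ a := hl a (by simp)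
    rw [mB, List.sum_cons, zero_add, trP_mul (hD.pre a ha)
      (ShN_of (fun i => mB D i l) (fun i => CHQ_mB_sh hD l i) a), List.map_cons, List.sum_cons, pow_add,
      fx, LinearMap.comp_apply]
    exact CHQ_step_sum hD ha hv S S' _ _ _ fun M => ih (fun b hb => hl b (by simp [hb])) M

theorem CHQ_tr_mB' (hD : CHQ_BD v x D) (hv : v ≠ 0) (l : List ℕ) (hl : ∀ a ∈ l, 1 ≤ a) (S S' : St) :
    trP l.sum S S' (mB' D 0 l) =
      v ^ ((l.map (· - 1)).sum) * fx x l (Finsupp.single S 1) S' := by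
  induction l generalizing S with
  | nil =>
    rw [mB', List.sum_nil, trP_zero, fx]
    simp
  | cons a l ih =>
    have ha : 1 ≤ a := hl a (by simp)
    have e : trP (a + l.sum) S S' (mB' D a l * D 0 a) =
        trP (a + l.sum) S S' (D 0 a * mB' D a l) := by
      rw [trP_eq, trP_eq, trF_eq, trF_eq, matF_mul (hD.stab 0 a _ S S'),
        matF_mul (CHQ_mB'_stab hD l a _ S S'), Matrix.trace_mul_comm]
    rw [mB', List.sum_cons, zero_add, e, trP_mul (hD.pre a ha)
      (ShN_of (fun i => mB' D i l) (fun i => CHQ_mB'_sh hD l i) a), List.map_cons, List.sum_cons,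
      pow_add, fx, LinearMap.comp_apply]
    exact CHQ_step_sum hD ha hv S S' _ _ _ fun M => ih (fun b hb => hl b (by simp [hb])) M

/-! ### the two block operators -/

/-- `X_k T_k ... T_{k+a-2}` -/
noncomputable def CHQ_D1 (v : K) (x : Lab → K) (k a : ℕ) : Module.End K (List Lab →₀ K) :=
  Xop x k * asc (Top v x) k (a - 1)

/-- `T_{k+a-2} ... T_k X_k` -/
noncomputable def CHQ_D2 (v : K) (x : Lab → K) (k a : ℕ) : Module.End K (List Lab →₀ K) :=
  dsc (Top v x) k (a - 1) * Xop x k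

theorem CHQ_asc_stab {n : ℕ} {S S' : St} (hx : XOK v x) (i k : ℕ) :
    Stab (paths n S S') (asc (Top v x) i k) ∧
      matF (paths n S S') (asc (Top v x) i k) =
        asc (fun j => matF (paths n S S') (Top v x j)) i k :=
  matF_prod _ _ fun j _ => Stab_Top hx _ S S' j

theorem CHQ_dsc_stab {n : ℕ} {S S' : St} (hx : XOK v x) (i k : ℕ) :
    Stab (paths n S S') (dsc (Top v x) i k) ∧
      matF (paths n S S') (dsc (Top v x) i k) =
        dsc (fun j => matF (paths n S S') (Top v x j)) i k :=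
  matF_prod _ _ fun j _ => Stab_Top hx _ S S' j

theorem CHQ_D1_eq (Q v : K) (m : ℕ) {a : ℕ} (ha : 1 ≤ a) :
    CHQ_D1 v (xQ Q v m) 0 a = opWQ Q v m (List.range a) := by
  obtain ⟨b, rfl⟩ : ∃ b, a = b + 1 := ⟨a - 1, by omega⟩
  rw [Pool.Agent.helper27.PC.Q.opW_range, CHQ_D1, Nat.add_sub_cancel]

theorem CHQ_D2_eq (Q v : K) (m : ℕ) {a : ℕ} (ha : 1 ≤ a) :
    CHQ_D2 v (xQ Q v m) 0 a = opWQ Q v m (List.range a).reverse := by
  obtain ⟨b, rfl⟩ : ∃ b, a = b + 1 := ⟨a - 1, by omega⟩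
  rw [Pool.Agent.helper27.PC.Q.opW_range_rev, CHQ_D2, Nat.add_sub_cancel, dsc]

end gen

theorem CHQ_BD1 {K : Type} [Field K] {Q v : K} (hv : GenQ Q v) (m : ℕ) :
    CHQ_BD v (xQ Q v m) (CHQ_D1 v (xQ Q v m)) := by
  refine ⟨?_, ?_, ?_, ?_⟩
  · intro k a
    refine (Sh_Xop _ k).mul ?_
    have h1 := Sh_prod (fun i => Top v (xQ Q v m) i) (fun i => Top v (xQ Q v m) (i + 1))
      (List.range' k (a - 1)) fun i _ => Sh_Top v _ i
    have e : asc (Top v (xQ Q v m)) (k + 1) (a - 1) =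
        ((List.range' k (a - 1)).map fun i => Top v (xQ Q v m) (i + 1)).prod := by
      unfold asc
      rw [range'_succ_shift, List.map_map]
      rfl
    rw [e]; exact h1
  · intro a ha
    refine (Pre_Xop _ (by omega)).mul (Pre_prod _ _ fun i hi => Pre_Top v _ ?_)
    rw [List.mem_range'_1] at hi
    omega
  · intro k a n S S'
    exact (Stab_Xop _ _).mul (CHQ_asc_stab (xQ_ok hv m) k (a - 1)).1
  · intro a ha S S'
    rw [CHQ_D1_eq Q v m ha]
    exact (RRQ K Q v hv m a S S' ha).1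

theorem CHQ_BD2 {K : Type} [Field K] {Q v : K} (hv : GenQ Q v) (m : ℕ) :
    CHQ_BD v (xQ Q v m) (CHQ_D2 v (xQ Q v m)) := by
  refine ⟨?_, ?_, ?_, ?_⟩
  · intro k a
    refine Sh.mul ?_ (Sh_Xop _ k)
    have h1 := Sh_prod (fun i => Top v (xQ Q v m) i) (fun i => Top v (xQ Q v m) (i + 1))
      (List.range' k (a - 1)).reverse fun i _ => Sh_Top v _ i
    have e : dsc (Top v (xQ Q v m)) (k + 1) (a - 1) =
        ((List.range' k (a - 1)).reverse.map fun i => Top v (xQ Q v m) (i + 1)).prod := by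
      unfold dsc
      rw [range'_succ_shift, ← List.map_reverse, List.map_map]
      rfl
    rw [e]; exact h1
  · intro a ha
    refine Pre.mul (Pre_prod _ _ fun i hi => Pre_Top v _ ?_) (Pre_Xop _ (by omega))
    rw [List.mem_reverse, List.mem_range'_1] at hi
    omega
  · intro k a n S S'
    exact (CHQ_dsc_stab (xQ_ok hv m) k (a - 1)).1.mul (Stab_Xop _ _)
  · intro a ha S S'
    rw [CHQ_D2_eq Q v m ha]
    exact (RRQ K Q v hv m a S S' ha).2

section words

variable {K : Type} [Field K] {Q v : K}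

theorem CHQ_opWQ_append (Q v : K) (m : ℕ) (l₁ l₂ : List ℕ) :
    opWQ Q v m (l₁ ++ l₂) = opWQ Q v m l₁ * opWQ Q v m l₂ := by
  unfold opWQ; rw [List.map_append, List.prod_append]

theorem CHQ_opWQ_stab (hv : GenQ Q v) (m n : ℕ) (S S' : St) (l : List ℕ) :
    Stab (paths n S S') (opWQ Q v m l) :=
  (matF_prod _ _ fun i _ => Stab_opQ hv m n S S' i).1

theorem CHQ_opWQ_range' (Q v : K) (m n : ℕ) :
    opWQ Q v m (List.range' 1 n) = asc (Top v (xQ Q v m)) 0 n := by
  unfold opWQ asc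
  rw [range'_one, List.map_map]
  rfl

theorem CHQ_opWQ_range'_rev (Q v : K) (m n : ℕ) :
    opWQ Q v m (List.range' 1 n).reverse = dsc (Top v (xQ Q v m)) 0 n := by
  unfold opWQ dsc
  rw [range'_one, ← List.map_reverse, List.map_map]
  rfl

theorem CHQ_TXT_mat (hv : GenQ Q v) (m n : ℕ) (S S' : St) {i : ℕ} (hi : i + 1 < n) :
    matF (paths n S S') (Top v (xQ Q v m) i) * matF (paths n S S') (Xop (xQ Q v m) i) *
      matF (paths n S S') (Top v (xQ Q v m) i) = matF (paths n S S') (Xop (xQ Q v m) (i + 1)) := by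
  have hx := xQ_ok hv m
  rw [← matF_mul (Stab_Xop _ _), ← matF_mul (Stab_Top hx n S S' i)]
  apply matF_congr
  intro w hw
  have hl := length_of_mem_paths hw
  obtain ⟨p, a, b, z, rfl, hp⟩ := exists_split₂ (i := i) (w := w) (by omega)
  exact TXT_word hx hp (mem_split₂ hw).1

theorem CHQ_block_mat (hv : GenQ Q v) (m n : ℕ) (S S' : St) {k a : ℕ} (ha : 1 ≤ a)
    (hk : k + a ≤ n) :
    matF (paths n S S') (opWQ Q v m (blockWord k a)) =
      matF (paths n S S') (CHQ_D1 v (xQ Q v m) k a) := by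
  have hx := xQ_ok hv m
  obtain ⟨b, rfl⟩ : ∃ b, a = b + 1 := ⟨a - 1, by omega⟩
  unfold blockWord
  rw [CHQ_opWQ_append, show k + (b + 1) - 1 = k + b by omega, CHQ_opWQ_range', Pool.Agent.helper27.PC.Q.opW_range_rev,
    asc_add, zero_add,
    matF_mul ((CHQ_asc_stab hx 0 k).1.mul (CHQ_asc_stab hx k b).1), matF_mul (CHQ_asc_stab hx k b).1,
    matF_mul (Stab_Xop _ _)]
  have e : matF (paths n S S') (((List.range' 0 k).reverse.map (Top v (xQ Q v m))).prod) =
      dsc (fun j => matF (paths n S S') (Top v (xQ Q v m) j)) 0 k := (CHQ_dsc_stab hx 0 k).2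
  rw [e, (CHQ_asc_stab hx 0 k).2, ← mul_assoc,
    core (fun j => matF (paths n S S') (Top v (xQ Q v m) j))
      (fun j => matF (paths n S S') (Xop (xQ Q v m) j)) k fun i hi =>
        CHQ_TXT_mat hv m n S S' (by omega),
    CHQ_D1, Nat.add_sub_cancel, matF_mul (CHQ_asc_stab hx k b).1]

theorem CHQ_block_mat' (hv : GenQ Q v) (m n : ℕ) (S S' : St) {k a : ℕ} (ha : 1 ≤ a)
    (hk : k + a ≤ n) :
    matF (paths n S S') (opWQ Q v m (blockWord k a).reverse) =
      matF (paths n S S') (CHQ_D2 v (xQ Q v m) k a) := by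
  have hx := xQ_ok hv m
  obtain ⟨b, rfl⟩ : ∃ b, a = b + 1 := ⟨a - 1, by omega⟩
  unfold blockWord
  rw [List.reverse_append, List.reverse_reverse, CHQ_opWQ_append, show k + (b + 1) - 1 = k + b by omega,
    CHQ_opWQ_range'_rev, Pool.Agent.helper27.PC.Q.opW_range, dsc_add, zero_add,
    matF_mul ((Stab_Xop _ _).mul (CHQ_asc_stab hx 0 k).1), matF_mul (CHQ_dsc_stab hx 0 k).1,
    matF_mul (CHQ_asc_stab hx 0 k).1]
  rw [(CHQ_asc_stab hx 0 k).2, (CHQ_dsc_stab hx 0 k).2, mul_assoc, ← mul_assoc (dsc _ 0 k),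
    core (fun j => matF (paths n S S') (Top v (xQ Q v m) j))
      (fun j => matF (paths n S S') (Xop (xQ Q v m) j)) k fun i hi =>
        CHQ_TXT_mat hv m n S S' (by omega),
    CHQ_D2, Nat.add_sub_cancel, matF_mul (Stab_Xop _ _)]

theorem CHQ_word_mat (hv : GenQ Q v) (m n : ℕ) (S S' : St) (l : List ℕ) (hl : ∀ a ∈ l, 1 ≤ a) (k : ℕ)
    (hk : k + l.sum ≤ n) :
    matF (paths n S S') (opWQ Q v m (stdWord k l)) =
      matF (paths n S S') (mB (CHQ_D1 v (xQ Q v m)) k l) := by
  induction l generalizing k with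
  | nil => rw [stdWord, mB]; rfl
  | cons a l ih =>
    rw [List.sum_cons] at hk
    rw [stdWord, mB, CHQ_opWQ_append, matF_mul (CHQ_opWQ_stab hv m n S S' _),
      matF_mul (CHQ_mB_stab (CHQ_BD1 hv m) l _ n S S'),
      CHQ_block_mat hv m n S S' (hl a (by simp)) (by omega),
      ih (fun b hb => hl b (by simp [hb])) (k + a) (by omega)]

theorem CHQ_word_mat' (hv : GenQ Q v) (m n : ℕ) (S S' : St) (l : List ℕ) (hl : ∀ a ∈ l, 1 ≤ a)
    (k : ℕ) (hk : k + l.sum ≤ n) :
    matF (paths n S S') (opWQ Q v m (stdWord k l).reverse) =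
      matF (paths n S S') (mB' (CHQ_D2 v (xQ Q v m)) k l) := by
  induction l generalizing k with
  | nil => rw [stdWord, mB']; rfl
  | cons a l ih =>
    rw [List.sum_cons] at hk
    rw [stdWord, mB', List.reverse_append, CHQ_opWQ_append, matF_mul (CHQ_opWQ_stab hv m n S S' _),
      matF_mul ((CHQ_BD2 hv m).stab k a n S S'),
      CHQ_block_mat' hv m n S S' (hl a (by simp)) (by omega),
      ih (fun b hb => hl b (by simp [hb])) (k + a) (by omega)]

/-- the length of a block word of type `t` -/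
def CHQ_bl (t : Bool) (k a : ℕ) : ℕ := 2 * k + a - if t then 0 else 1

theorem CHQ_lenT_append (t : Bool) (l₁ l₂ : List ℕ) : lenT t (l₁ ++ l₂) = lenT t l₁ + lenT t l₂ := by
  unfold lenT; rw [List.filter_append, List.length_append]

theorem CHQ_lenT_reverse (t : Bool) (l : List ℕ) : lenT t l.reverse = lenT t l := by
  unfold lenT; rw [List.filter_reverse, List.length_reverse]

theorem CHQ_lenT_pos (t : Bool) (l : List ℕ) (h : ∀ i ∈ l, i ≠ 0) : lenT t l = l.length := by
  unfold lenT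
  rw [List.filter_eq_self.2]
  intro i hi
  simp [h i hi]

theorem CHQ_lenT_block (t : Bool) {k a : ℕ} (ha : 1 ≤ a) : lenT t (blockWord k a) = CHQ_bl t k a := by
  unfold blockWord CHQ_bl
  rw [CHQ_lenT_append, CHQ_lenT_reverse, List.range_succ_eq_map]
  have e1 : lenT t (0 :: (List.range k).map Nat.succ) = k + if t then 1 else 0 := by
    have h1 : lenT t ((List.range k).map Nat.succ) = k := by
      rw [CHQ_lenT_pos]
      · simp
      · intro i hi
        rw [List.mem_map] at hi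
        obtain ⟨j, _, rfl⟩ := hi
        exact Nat.succ_ne_zero j
    unfold lenT at h1 ⊢
    cases t
    · rw [List.filter_cons_of_neg (by simp), h1]; simp
    · rw [List.filter_cons_of_pos (by simp), List.length_cons, h1]; simp
  have e2 : lenT t (List.range' 1 (k + a - 1)) = k + a - 1 := by
    rw [CHQ_lenT_pos, List.length_range']
    intro i hi
    rw [List.mem_range'_1] at hi
    omega
  rw [e1, e2]
  cases t <;> simp <;> omega

theorem CHQ_ev_wT (t : Bool) (hv : v ≠ 0) {n k a : ℕ} (ha : 1 ≤ a) {l : Lab} (h : n ≤ l.2 + a + k) :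
    ev v (wT t n k a l) = v ^ (CHQ_bl t k a) * v ^ (a - 1) * xQ (Qt t v) v n l := by
  cases t
  · obtain ⟨b, p⟩ := l
    simp only at h
    have hz : ∀ j : ℕ, (v ^ j : K) = v ^ (j : ℤ) := fun j => (zpow_natCast v j).symm
    have e2 : v ^ (2 * (k + a + p - n)) = v ^ (2 * k + a - 1) * v ^ (a - 1) *
        v ^ (2 * ((p : ℤ) + 1 - n)) := by
      rw [hz, hz, hz, ← zpow_add₀ hv, ← zpow_add₀ hv]
      congr 1
      push_cast [Nat.cast_sub ha, Nat.cast_sub (show n ≤ k + a + p by omega),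
        Nat.cast_sub (show 1 ≤ 2 * k + a by omega)]
      ring
    unfold wT xQ CHQ_bl Qt
    simp only [Bool.false_eq_true, if_false, inv_one]
    cases b
    · simp only [Bool.false_eq_true, if_false]
      rw [map_neg, map_pow, ev_X, ← pow_mul, e2]
      ring
    · simp only [if_true]
      rw [map_pow, ev_X, ← pow_mul, e2]
      ring
  · have h1 := ev_wq hv ha h
    have e : CHQ_bl true k a = 2 * k + a := by simp [CHQ_bl]
    have e2 : wT true n k a l = wq n k a l := by simp [wT]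
    have e3 : xQ (Qt true v) v n l = xK v n l := by simp [xQ, xK, Qt]
    rw [e, e2, e3, h1]

theorem CHQ_Rib_evu (t : Bool) (hv : v ≠ 0) {n k a : ℕ} (ha : 1 ≤ a) (u : St →₀ ℤ[X])
    (hu : ∀ S ∈ u.support, Good n k S) :
    evu v (Rib (wT t n k a) a u) =
      (v ^ (CHQ_bl t k a) * v ^ (a - 1)) • Rib (xQ (Qt t v) v n) a (evu v u) := by
  ext S'
  rw [Finsupp.smul_apply, smul_eq_mul]
  unfold evu
  rw [Finsupp.mapRange_apply, Rib_apply, Rib_apply]
  have h1 : ∑ S ∈ (u.mapRange (ev v) (map_zero _)).support, (u.mapRange (ev v) (map_zero _)) S *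
      (∑ l ∈ addable a S, if move a S l = S' then (-1) ^ cnt S l a * xQ (Qt t v) v n l else 0) =
      ∑ S ∈ u.support, ev v (u S) *
      (∑ l ∈ addable a S, if move a S l = S' then (-1) ^ cnt S l a * xQ (Qt t v) v n l else 0) := by
    rw [sum_subset (Finsupp.support_mapRange (f := ev v) (hf := map_zero _) (g := u))]
    · simp only [Finsupp.mapRange_apply]
    · intro S _ h
      rw [Finsupp.notMem_support_iff.1 h, zero_mul]
  rw [h1, map_sum, mul_sum]
  apply sum_congr rfl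
  intro S hS
  rw [map_mul, map_sum, mul_left_comm]
  congr 1
  rw [mul_sum]
  apply sum_congr rfl
  intro l hl
  split_ifs
  · rw [map_mul, map_pow, map_neg, map_one, CHQ_ev_wT t hv ha ((hu S hS).up hl)]
    ring
  · rw [map_zero, mul_zero]

theorem CHQ_Rib_good (w : Lab → ℤ[X]) {n k a : ℕ} (u : St →₀ ℤ[X])
    (hu : ∀ S ∈ u.support, Good n k S) : ∀ S ∈ (Rib w a u).support, Good n (k + a) S := by
  intro S' hS'
  rw [Finsupp.mem_support_iff, Rib_apply] at hS'
  obtain ⟨S, hS, h1⟩ := exists_ne_zero_of_sum_ne_zero hS'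
  obtain ⟨l, hl, h2⟩ := exists_ne_zero_of_sum_ne_zero (right_ne_zero_of_mul h1)
  split_ifs at h2 with h3
  · rw [← h3]; exact (hu S hS).move hl
  · exact absurd rfl h2

theorem CHQ_ev_fock (t : Bool) (hv : v ≠ 0) (n : ℕ) (l : List ℕ) (hl : ∀ a ∈ l, 1 ≤ a) (k : ℕ)
    (u : St →₀ ℤ[X]) (hu : ∀ S ∈ u.support, Good n k S) (S' : St) :
    ev v (fockT t n k l u S') = v ^ (lenT t (stdWord k l)) *
      (v ^ ((l.map (· - 1)).sum) * fx (xQ (Qt t v) v n) l (evu v u) S') := by
  induction l generalizing k u with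
  | nil =>
    rw [fockT, stdWord, fx]
    simp [evu, lenT]
  | cons a l ih =>
    have ha : 1 ≤ a := hl a (by simp)
    rw [fockT, stdWord, fx, ih (fun b hb => hl b (by simp [hb])) (k + a) _ (CHQ_Rib_good _ u hu),
      CHQ_Rib_evu t hv ha u hu, map_smul, Finsupp.smul_apply, smul_eq_mul, LinearMap.comp_apply,
      CHQ_lenT_append, CHQ_lenT_block t ha, List.map_cons, List.sum_cons, pow_add,
      pow_add v (a - 1)]
    ring

theorem CHQ_ev_vec (t : Bool) (hv : v ≠ 0) (n : ℕ) (l : List ℕ) (hl : ∀ a ∈ l, 1 ≤ a) (S' : St) :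
    (vecT t n l S').eval₂ (Int.castRingHom K) (v ^ 2) = v ^ (lenT t (stdWord 0 l)) *
      (v ^ ((l.map (· - 1)).sum) *
        fx (xQ (Qt t v) v n) l (Finsupp.single (vac n) 1) S') := by
  have h := CHQ_ev_fock t hv n l hl 0 (Finsupp.single (vac n) 1) (by
    intro S hS
    have := Finsupp.support_single_subset hS
    rw [mem_singleton] at this
    rw [this]; exact good_vac n) S'
  have e : evu v (Finsupp.single (vac n) 1) = Finsupp.single (vac n) 1 := by
    unfold evu; rw [Finsupp.mapRange_single, map_one]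
  rw [e] at h
  exact h

end words

theorem CHQ : CHQ_stmt := by
  intro t K _ v hv n l h1 _ S'
  have hq : GenQ (Qt t v) v := GenQ_Qt hv t
  have h0 : v ≠ 0 := hq.2.1
  constructor
  · rw [CHQ_ev_vec t h0 _ l h1 S', ← CHQ_tr_mB (CHQ_BD1 hq n) h0 l h1, trP_eq, trP_eq, trF_eq,
      trF_eq, CHQ_word_mat hq n l.sum (vac n) S' l h1 0 (by omega)]
  · rw [CHQ_ev_vec t h0 _ l h1 S', ← CHQ_tr_mB' (CHQ_BD2 hq n) h0 l h1, trP_eq, trP_eq, trF_eq,
      trF_eq, CHQ_word_mat' hq n l.sum (vac n) S' l h1 0 (by omega)]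

end Pool.Agent.helper27.PC
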